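import Pool.Agent.N483.KM.StmV

/-!
# Project KM, part VAP: approximation by finite functions, blocks
-/

set_option autoImplicit false

namespace Pool.Agent.N896.KM

open MeasureTheory Set Filter Topology
open scoped ENNReal InnerProductSpace

open Pool.Agent.R754.KG (E)
open Pool.Agent.N483.KM

/-- the Lipschitz regularisation -/
noncomputable def H {k : ℕ} (W : E k → ℝ≥0∞) (m : ℕ) (x : E k) : ℝ≥0∞ :=
  ⨅ y, (W y + ENNReal.ofReal (((m : ℝ) + 1) * ‖x - y‖))

section
variable {k : ℕ} {W : E k → ℝ≥0∞}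

theorem H_le (W : E k → ℝ≥0∞) (m : ℕ) (x y : E k) :
    H W m x ≤ W y + ENNReal.ofReal (((m : ℝ) + 1) * ‖x - y‖) := iInf_le _ y

theorem H_le_self (W : E k → ℝ≥0∞) (m : ℕ) (x : E k) : H W m x ≤ W x := by
  have := H_le W m x x
  simpa using this

theorem H_ne_top {y₀ : E k} (h : W y₀ ≠ ⊤) (m : ℕ) (x : E k) : H W m x ≠ ⊤ :=
  ne_top_of_le_ne_top (ENNReal.add_ne_top.2 ⟨h, ENNReal.ofReal_ne_top⟩) (H_le W m x y₀)

theorem H_mono (W : E k → ℝ≥0∞) (x : E k) {m m' : ℕ} (h : m ≤ m') : H W m x ≤ H W m' x := by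
  refine iInf_mono fun y => ?_
  have : (m : ℝ) ≤ m' := by exact_mod_cast h
  gcongr

theorem H_inv (g : E k ≃ₗᵢ[ℝ] E k) (h : ∀ x, W (g x) = W x) (m : ℕ) (x : E k) :
    H W m (g x) = H W m x := by
  unfold H
  rw [← g.surjective.iInf_comp]
  refine iInf_congr fun y => ?_
  rw [h, ← map_sub, g.norm_map]

theorem H_conv (hW : XK W) {y₀ : E k} (h : W y₀ ≠ ⊤) (m : ℕ) (x y : E k) {t : ℝ} (ht0 : 0 < t)
    (ht1 : t < 1) : H W m ((1 - t) • x + t • y) ≤
      ENNReal.ofReal (1 - t) * H W m x + ENNReal.ofReal t * H W m y := by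
  refine ENNReal.le_of_forall_pos_le_add fun ε hε _ => ?_
  have hε' : (ε : ℝ≥0∞) ≠ 0 := by
    rw [Ne, ENNReal.coe_eq_zero]
    exact hε.ne'
  obtain ⟨y1, hy1⟩ : ∃ y1, W y1 + ENNReal.ofReal (((m : ℝ) + 1) * ‖x - y1‖) < H W m x + ε :=
    iInf_lt_iff.1 (ENNReal.lt_add_right (H_ne_top h m x) hε')
  obtain ⟨y2, hy2⟩ : ∃ y2, W y2 + ENNReal.ofReal (((m : ℝ) + 1) * ‖y - y2‖) < H W m y + ε :=
    iInf_lt_iff.1 (ENNReal.lt_add_right (H_ne_top h m y) hε')
  have hone : ENNReal.ofReal (1 - t) + ENNReal.ofReal t = 1 := by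
    rw [← ENNReal.ofReal_add (by linarith) ht0.le, sub_add_cancel, ENNReal.ofReal_one]
  have hn : ENNReal.ofReal (((m : ℝ) + 1) * ‖((1 - t) • x + t • y) - ((1 - t) • y1 + t • y2)‖) ≤
      ENNReal.ofReal (1 - t) * ENNReal.ofReal (((m : ℝ) + 1) * ‖x - y1‖) +
        ENNReal.ofReal t * ENNReal.ofReal (((m : ℝ) + 1) * ‖y - y2‖) := by
    rw [← ENNReal.ofReal_mul (by linarith), ← ENNReal.ofReal_mul ht0.le,
      ← ENNReal.ofReal_add (mul_nonneg (by linarith) (by positivity)) (by positivity)]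
    refine ENNReal.ofReal_le_ofReal ?_
    have e1 : ((1 - t) • x + t • y) - ((1 - t) • y1 + t • y2) =
        (1 - t) • (x - y1) + t • (y - y2) := by
      rw [smul_sub, smul_sub]; abel
    rw [e1]
    have e2 : ‖(1 - t) • (x - y1) + t • (y - y2)‖ ≤ (1 - t) * ‖x - y1‖ + t * ‖y - y2‖ := by
      refine (norm_add_le _ _).trans ?_
      rw [norm_smul, norm_smul, Real.norm_of_nonneg (by linarith), Real.norm_of_nonneg ht0.le]
    have e3 : (0 : ℝ) ≤ (m : ℝ) + 1 := by positivity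
    calc ((m : ℝ) + 1) * ‖(1 - t) • (x - y1) + t • (y - y2)‖
        ≤ ((m : ℝ) + 1) * ((1 - t) * ‖x - y1‖ + t * ‖y - y2‖) :=
          mul_le_mul_of_nonneg_left e2 e3
      _ = _ := by ring
  calc H W m ((1 - t) • x + t • y)
      ≤ W ((1 - t) • y1 + t • y2) + ENNReal.ofReal (((m : ℝ) + 1) *
          ‖((1 - t) • x + t • y) - ((1 - t) • y1 + t • y2)‖) := H_le _ _ _ _
    _ ≤ (ENNReal.ofReal (1 - t) * W y1 + ENNReal.ofReal t * W y2) +
        (ENNReal.ofReal (1 - t) * ENNReal.ofReal (((m : ℝ) + 1) * ‖x - y1‖) +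
          ENNReal.ofReal t * ENNReal.ofReal (((m : ℝ) + 1) * ‖y - y2‖)) :=
        add_le_add (hW.conv y1 y2 t ht0 ht1) hn
    _ = ENNReal.ofReal (1 - t) * (W y1 + ENNReal.ofReal (((m : ℝ) + 1) * ‖x - y1‖)) +
        ENNReal.ofReal t * (W y2 + ENNReal.ofReal (((m : ℝ) + 1) * ‖y - y2‖)) := by ring
    _ ≤ ENNReal.ofReal (1 - t) * (H W m x + ε) + ENNReal.ofReal t * (H W m y + ε) :=
        add_le_add (mul_le_mul_right hy1.le _) (mul_le_mul_right hy2.le _)
    _ = ENNReal.ofReal (1 - t) * H W m x + ENNReal.ofReal t * H W m y +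
        (ENNReal.ofReal (1 - t) + ENNReal.ofReal t) * ε := by ring
    _ = ENNReal.ofReal (1 - t) * H W m x + ENNReal.ofReal t * H W m y + ε := by
        rw [hone, one_mul]

theorem H_convexOn (hW : XK W) {y₀ : E k} (h : W y₀ ≠ ⊤) (m : ℕ) :
    ConvexOn ℝ univ fun x => (H W m x).toReal := by
  rw [convexOn_iff_forall_pos]
  refine ⟨convex_univ, fun x _ y _ a b ha hb hab => ?_⟩
  have ha' : a = 1 - b := by linarith
  subst ha'
  have h1 := H_conv hW h m x y hb (by linarith)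
  have ha1 : ENNReal.ofReal (1 - b) * H W m x ≠ ⊤ :=
    ENNReal.mul_ne_top ENNReal.ofReal_ne_top (H_ne_top h m x)
  have hb1 : ENNReal.ofReal b * H W m y ≠ ⊤ :=
    ENNReal.mul_ne_top ENNReal.ofReal_ne_top (H_ne_top h m y)
  have h2 := ENNReal.toReal_mono (ENNReal.add_ne_top.2 ⟨ha1, hb1⟩) h1
  rw [ENNReal.toReal_add ha1 hb1, ENNReal.toReal_mul, ENNReal.toReal_mul,
    ENNReal.toReal_ofReal ha.le, ENNReal.toReal_ofReal hb.le] at h2
  simpa [smul_eq_mul] using h2

theorem H_tendsto (hW : LowerSemicontinuous W) (x : E k) :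
    Tendsto (fun m => H W m x) atTop (𝓝 (W x)) := by
  refine tendsto_order.2 ⟨fun a ha => ?_, fun a ha => ?_⟩
  · obtain ⟨b, hab, hb⟩ := exists_between ha
    have hbt : b ≠ ⊤ := (lt_top_of_lt hb).ne
    have h1 : ∀ᶠ y in 𝓝 x, b < W y := hW x b hb
    obtain ⟨δ, hδ, hball⟩ := Metric.eventually_nhds_iff.1 h1
    obtain ⟨M, hM⟩ := exists_nat_gt (b.toReal / δ)
    filter_upwards [eventually_ge_atTop M] with m hm
    refine lt_of_lt_of_le hab (le_iInf fun y => ?_)
    by_cases hy : dist y x < δ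
    · exact (hball hy).le.trans le_self_add
    · have hy' : δ ≤ ‖x - y‖ := by
        rw [← dist_eq_norm, dist_comm]
        exact not_lt.1 hy
      refine le_trans ?_ le_add_self
      rw [← ENNReal.ofReal_toReal hbt]
      refine ENNReal.ofReal_le_ofReal ?_
      rw [div_lt_iff₀ hδ] at hM
      have hm' : (M : ℝ) ≤ m := by exact_mod_cast hm
      nlinarith
  · exact Eventually.of_forall fun m => (H_le_self W m x).trans_lt ha

end

theorem q_convex {k : ℕ} (R : ℝ) : ConvexOn ℝ univ fun t : E k => max (‖t‖ - R) 0 ^ 2 := by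
  have h1 : ConvexOn ℝ univ fun t : E k => max (‖t‖ - R) 0 := by
    have h0 : ConvexOn ℝ univ fun t : E k => ‖t‖ - R := by
      have := (convexOn_norm (E := E k) convex_univ).add_const (-R)
      refine this.congr ?_
      intro t _
      simp [sub_eq_add_neg]
    exact h0.sup (convexOn_const 0 convex_univ)
  exact h1.pow (fun t _ => le_max_right _ _) 2

theorem t_VAP : S_VAP := by
  classical
  intro r B n k L V e hV he hb hne
  obtain ⟨x0, hx0⟩ := hne
  have hx0' : ∀ j, ∑ i, V j i (L x0 i) ≤ e j := hx0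
  obtain ⟨ρ, hρ⟩ := hb.exists_norm_le
  have hfin : ∀ j i, V j i (L x0 i) ≠ ⊤ := by
    intro j i
    refine ne_top_of_le_ne_top (he j) ((?_ : V j i (L x0 i) ≤ _).trans (hx0' j))
    exact Finset.single_le_sum (f := fun i => V j i (L x0 i)) (fun _ _ => zero_le)
      (Finset.mem_univ i)
  -- the bound for the blocks
  obtain ⟨R, hR⟩ : ∃ R : ℝ, ∀ x ∈ VX L V e, ∀ i, ‖L x i‖ ≤ R := by
    refine ⟨‖LinearMap.toContinuousLinearMap L‖ * ρ, fun x hx i => ?_⟩
    have h1 : ‖L x i‖ ≤ ‖L x‖ := norm_le_pi_norm (L x) i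
    have h2 : ‖L x‖ ≤ ‖LinearMap.toContinuousLinearMap L‖ * ‖x‖ :=
      (LinearMap.toContinuousLinearMap L).le_opNorm x
    exact (h1.trans h2).trans (mul_le_mul_of_nonneg_left (hρ x hx) (norm_nonneg _))
  -- injectivity
  have hinj : LinearMap.ker L = ⊥ := by
    rw [LinearMap.ker_eq_bot']
    intro d hd
    by_contra hd0
    have hdn : 0 < ‖d‖ := norm_pos_iff.2 hd0
    have h1 : ∀ t : ℝ, ‖x0 + t • d‖ ≤ ρ := by
      intro t
      refine hρ _ fun j => ?_
      have : L (x0 + t • d) = L x0 := by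
        rw [map_add, map_smul, hd, smul_zero, add_zero]
      rw [this]
      exact hx0' j
    have h2 := h1 ((ρ + ‖x0‖ + 1) / ‖d‖)
    have h3 : ‖((ρ + ‖x0‖ + 1) / ‖d‖) • d‖ = ρ + ‖x0‖ + 1 := by
      have hρ0 : 0 ≤ ρ := (norm_nonneg _).trans (h1 0)
      rw [norm_smul, Real.norm_of_nonneg (by positivity)]
      field_simp
    have h4 := norm_sub_le (x0 + ((ρ + ‖x0‖ + 1) / ‖d‖) • d) x0
    rw [add_sub_cancel_left, h3] at h4
    linarith
  obtain ⟨U, hU⟩ : ∃ U : ℕ → Fin r → ∀ i, E (k i) → ℝ, ∀ m j i t, U m j i t =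
      (H (V j i) m t).toReal + max (‖t‖ - R) 0 ^ 2 := ⟨_, fun _ _ _ _ => rfl⟩
  obtain ⟨f, hf⟩ : ∃ f : ℕ → Fin r → ℝ, ∀ m j, f m j = (e j).toReal + 1 / ((m : ℝ) + 1) :=
    ⟨_, fun _ _ => rfl⟩
  have hq : ∀ (i : Fin B) (t : E (k i)), 0 ≤ max (‖t‖ - R) 0 ^ 2 := fun _ t => sq_nonneg _
  have hgr : ∀ m j i t, max (‖t‖ - R) 0 ^ 2 ≤ U m j i t := by
    intro m j i t
    rw [hU]
    linarith [ENNReal.toReal_nonneg (a := H (V j i) m t)]
  have hnn : ∀ m j i t, 0 ≤ U m j i t := fun m j i t => (hq i t).trans (hgr m j i t)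
  -- sums
  have hsum : ∀ m j (x : E n), ∑ i, U m j i (L x i) =
      (∑ i, H (V j i) m (L x i)).toReal + ∑ i, max (‖L x i‖ - R) 0 ^ 2 := by
    intro m j x
    rw [ENNReal.toReal_sum fun i _ => H_ne_top (hfin j i) m _, ← Finset.sum_add_distrib]
    exact Finset.sum_congr rfl fun i _ => hU m j i _
  have hsumtop : ∀ m j (x : E n), ∑ i, H (V j i) m (L x i) ≠ ⊤ := by
    intro m j x
    rw [ENNReal.sum_ne_top]
    exact fun i _ => H_ne_top (hfin j i) m _
  have hgs : ∀ x : E n, 0 ≤ ∑ i, max (‖L x i‖ - R) 0 ^ 2 := fun x =>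
    Finset.sum_nonneg fun i _ => sq_nonneg _
  have hin : ∀ m j, ∀ x ∈ VX L V e, ∑ i, U m j i (L x i) ≤ (e j).toReal := by
    intro m j x hx
    have h0 : ∑ i, max (‖L x i‖ - R) 0 ^ 2 = 0 := by
      refine Finset.sum_eq_zero fun i _ => ?_
      rw [max_eq_right (by linarith [hR x hx i])]
      ring
    rw [hsum, h0, add_zero]
    have h1 : ∑ i, H (V j i) m (L x i) ≤ e j :=
      (Finset.sum_le_sum fun i _ => H_le_self _ _ _).trans (hx j)
    exact ENNReal.toReal_mono (he j) h1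
  have hpos : ∀ m : ℕ, 0 < 1 / ((m : ℝ) + 1) := fun m => by positivity
  refine ⟨U, f, ?_, hnn, fun m => ⟨R, fun j i x => hgr m j i x⟩, ?_, ?_, ?_, ?_, ?_⟩
  · intro m j i
    have : U m j i = fun t => (H (V j i) m t).toReal + max (‖t‖ - R) 0 ^ 2 := by
      funext t
      rw [hU]
    rw [this]
    exact (H_convexOn (hV j i) (hfin j i) m).add (q_convex R)
  · intro m i g hg j x
    rw [hU, hU, H_inv g (fun x => hg j x), g.norm_map]
  · intro m
    rcases Nat.eq_zero_or_pos r with hr | hr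
    · subst hr
      refine hb.subset ?_
      intro x _ j
      exact j.elim0
    · obtain ⟨K, -, hK⟩ := L.exists_antilipschitzWith hinj
      rw [isBounded_iff_forall_norm_le]
      have hC : ∀ x ∈ VR L (U m) (f m), ‖L x‖ ≤ |R| + √(f m ⟨0, hr⟩) := by
        intro x hx
        refine (pi_norm_le_iff_of_nonneg (by positivity)).2 fun i => ?_
        have h1 : max (‖L x i‖ - R) 0 ^ 2 ≤ f m ⟨0, hr⟩ := by
          refine (hgr m ⟨0, hr⟩ i (L x i)).trans (le_trans ?_ (hx ⟨0, hr⟩))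
          exact Finset.single_le_sum (f := fun i => U m ⟨0, hr⟩ i (L x i))
            (fun i _ => hnn _ _ _ _) (Finset.mem_univ i)
        have h2 : max (‖L x i‖ - R) 0 ≤ √(f m ⟨0, hr⟩) := Real.le_sqrt_of_sq_le h1
        have h3 := le_max_left (‖L x i‖ - R) 0
        have h4 := le_abs_self R
        linarith
      refine ⟨K * (|R| + √(f m ⟨0, hr⟩)), fun x hx => ?_⟩
      have h5 := hK.le_mul_dist x 0
      rw [map_zero, dist_zero_right, dist_zero_right] at h5
      exact h5.trans (mul_le_mul_of_nonneg_left (hC x hx) K.2)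
  · intro m
    refine ⟨x0, fun j => ?_⟩
    have h1 := hin m j x0 hx0
    have h2 := hpos m
    rw [hf]
    linarith
  · intro m x hx j
    have h1 := hx j
    rw [hsum (m + 1) j x, hf] at h1
    rw [hsum m j x, hf]
    have h2 : ∑ i, H (V j i) m (L x i) ≤ ∑ i, H (V j i) (m + 1) (L x i) :=
      Finset.sum_le_sum fun i _ => H_mono _ _ (Nat.le_succ m)
    have h3 := ENNReal.toReal_mono (hsumtop (m + 1) j x) h2
    have h4 : 1 / (((m + 1 : ℕ) : ℝ) + 1) ≤ 1 / ((m : ℝ) + 1) := by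
      apply one_div_le_one_div_of_le (by positivity)
      push_cast
      linarith
    linarith
  · ext x
    rw [mem_iInter]
    constructor
    · intro h j
      have h1 : ∀ m, ∑ i, H (V j i) m (L x i) ≤ e j + ENNReal.ofReal (1 / ((m : ℝ) + 1)) := by
        intro m
        have h2 := h m j
        rw [hsum m j x, hf] at h2
        have h2' : (∑ i, H (V j i) m (L x i)).toReal ≤ (e j).toReal + 1 / ((m : ℝ) + 1) := by
          linarith [hgs x]
        have h3 := ENNReal.ofReal_le_ofReal h2'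
        rw [ENNReal.ofReal_toReal (hsumtop m j x),
          ENNReal.ofReal_add ENNReal.toReal_nonneg (by positivity),
          ENNReal.ofReal_toReal (he j)] at h3
        exact h3
      have h2 : Tendsto (fun m => ∑ i, H (V j i) m (L x i)) atTop
          (𝓝 (∑ i, V j i (L x i))) :=
        tendsto_finsetSum _ fun i _ => H_tendsto (hV j i).lsc _
      have h3 : Tendsto (fun m : ℕ => e j + ENNReal.ofReal (1 / ((m : ℝ) + 1))) atTop
          (𝓝 (e j + ENNReal.ofReal 0)) :=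
        tendsto_const_nhds.add (ENNReal.tendsto_ofReal tendsto_one_div_add_atTop_nhds_zero_nat)
      rw [ENNReal.ofReal_zero, add_zero] at h3
      exact le_of_tendsto_of_tendsto' h2 h3 h1
    · intro h m j
      have h1 := hin m j x h
      have h2 := hpos m
      rw [hf]
      linarith

end Pool.Agent.N896.KM
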